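import Pool.Agent.EGF.StmtsU

set_option autoImplicit false

open Finset

namespace Pool.Agent.EGF.H59

theorem sum_edg {X : Type} [DecidableEq X] (P A1 : Finset X) (N : X → Finset X)
    (hN : ∀ x ∈ P, N x ⊆ A1) (h : X × X → ℝ) :
    ∑ i ∈ edg P A1 N, h i = ∑ x ∈ P, ∑ w ∈ N x, h (x, w) := by
  unfold edg
  rw [Finset.sum_filter, Finset.sum_product]
  refine Finset.sum_congr rfl fun x hx => ?_
  rw [← Finset.sum_filter]
  refine Finset.sum_congr ?_ fun _ _ => rfl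
  ext w
  simp only [Finset.mem_filter]
  exact ⟨fun h => h.2, fun h => ⟨hN x hx h, h⟩⟩

theorem sum_beta {Y : Type} [DecidableEq Y] (Q B1 : Finset Y) (N' : Y → Finset Y)
    (hN : ∀ y ∈ Q, N' y ⊆ B1) (g : Y → ℝ) :
    ∑ z ∈ B1, ((Q.filter fun y => z ∈ N' y).card : ℝ) * g z = ∑ y ∈ Q, ∑ z ∈ N' y, g z := by
  have h1 : ∀ z ∈ B1, ((Q.filter fun y => z ∈ N' y).card : ℝ) * g z =
      ∑ y ∈ Q, if z ∈ N' y then g z else 0 := by
    intro z _
    rw [Finset.card_filter, Nat.cast_sum, Finset.sum_mul]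
    refine Finset.sum_congr rfl fun y _ => ?_
    by_cases h : z ∈ N' y <;> simp [h]
  rw [Finset.sum_congr rfl h1, Finset.sum_comm]
  refine Finset.sum_congr rfl fun y hy => ?_
  rw [← Finset.sum_filter]
  refine Finset.sum_congr ?_ fun _ _ => rfl
  ext z
  simp only [Finset.mem_filter]
  exact ⟨fun h => h.2, fun h => ⟨hN y hy h, h⟩⟩

/-- the final numerical contradiction -/
theorem num (M T E KR r : ℝ) (hM : 0 < M) (hM1 : M ≤ 1) (hT : 1 ≤ T) (hE : 0 < E)
    (hKR : 1 ≤ KR) (hz : E * KR ≤ M ^ 4 / 10 ^ 6 * T) (hr1 : 1 ≤ r)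
    (hr : 1 / (2 * M ^ 2) ≤ r) (hr2 : r - 1 ≤ 1 / (2 * M ^ 2))
    (h : 4 / 5 * M ^ 2 * T ≤ ((1 + 1 / 200) * M) ^ 2 * (T - r * (4 / 5 * M ^ 2 * T) +
      r * (r - 1) / 2 * (T * ((((1 + 1 / 200) * M) ^ 2) ^ 2 + 3 * (3 * E / T + 2 * E / T)))) +
      3 * E * KR + 2 * E / T * T) : False := by
  have hT0 : 0 < T := by linarith
  have hM2 : 0 < M ^ 2 := by positivity
  have hM4 : 0 < M ^ 4 := by positivity
  have hEle : E ≤ M ^ 4 / 10 ^ 6 * T := by nlinarith
  have hET : E / T ≤ M ^ 4 / 10 ^ 6 := by rw [div_le_iff₀ hT0]; exact hEle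
  have hET0 : 0 ≤ E / T := by positivity
  have e1 : 3 * E / T + 2 * E / T = 5 * (E / T) := by ring
  have e2 : 2 * E / T * T = 2 * E := by field_simp
  rw [e1, e2] at h
  -- divide by T
  have hrM : 1 / 2 ≤ r * M ^ 2 := by
    rw [div_le_iff₀ (by positivity)] at hr
    nlinarith
  have hrM2 : (r - 1) * M ^ 2 ≤ 1 / 2 := by
    rw [le_div_iff₀ (by positivity)] at hr2
    nlinarith
  have hb : (((1 + 1 / 200) * M) ^ 2) ^ 2 + 3 * (5 * (E / T)) ≤ 10203 / 10000 * M ^ 4 := by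
    nlinarith
  have hb0 : 0 ≤ (((1 + 1 / 200) * M) ^ 2) ^ 2 + 3 * (5 * (E / T)) := by positivity
  have hc : r * (r - 1) / 2 * ((((1 + 1 / 200) * M) ^ 2) ^ 2 + 3 * (5 * (E / T))) ≤
      10203 / 40000 * (r * M ^ 2) := by
    have h1 : 0 ≤ r * (r - 1) / 2 := by
      have : 0 ≤ r * (r - 1) := mul_nonneg (by linarith) (by linarith)
      linarith
    have h2 : r * (r - 1) / 2 * ((((1 + 1 / 200) * M) ^ 2) ^ 2 + 3 * (5 * (E / T))) ≤
        r * (r - 1) / 2 * (10203 / 10000 * M ^ 4) := mul_le_mul_of_nonneg_left hb h1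
    have h3 : r * (r - 1) / 2 * (10203 / 10000 * M ^ 4) =
        10203 / 20000 * (r * M ^ 2) * ((r - 1) * M ^ 2) := by ring
    have h4 : 10203 / 20000 * (r * M ^ 2) * ((r - 1) * M ^ 2) ≤
        10203 / 20000 * (r * M ^ 2) * (1 / 2) :=
      mul_le_mul_of_nonneg_left hrM2 (by nlinarith)
    nlinarith
  have hd : T - r * (4 / 5 * M ^ 2 * T) + r * (r - 1) / 2 *
      (T * ((((1 + 1 / 200) * M) ^ 2) ^ 2 + 3 * (5 * (E / T)))) ≤ 728 / 1000 * T := by
    have h1 : T - r * (4 / 5 * M ^ 2 * T) + r * (r - 1) / 2 *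
      (T * ((((1 + 1 / 200) * M) ^ 2) ^ 2 + 3 * (5 * (E / T)))) =
      T * (1 - 4 / 5 * (r * M ^ 2) + r * (r - 1) / 2 *
        ((((1 + 1 / 200) * M) ^ 2) ^ 2 + 3 * (5 * (E / T)))) := by ring
    rw [h1]
    have h2 : 1 - 4 / 5 * (r * M ^ 2) + r * (r - 1) / 2 *
        ((((1 + 1 / 200) * M) ^ 2) ^ 2 + 3 * (5 * (E / T))) ≤ 728 / 1000 := by linarith
    nlinarith
  have hu : 0 ≤ ((1 + 1 / 200) * M) ^ 2 := by positivity
  have hf := mul_le_mul_of_nonneg_left hd hu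
  have hg : ((1 + 1 / 200) * M) ^ 2 * (728 / 1000 * T) ≤ 736 / 1000 * (M ^ 2 * T) := by
    have : ((1 + 1 / 200) * M) ^ 2 * (728 / 1000 * T) =
        (1 + 1 / 200) ^ 2 * (728 / 1000) * (M ^ 2 * T) := by ring
    rw [this]
    have : 0 < M ^ 2 * T := by positivity
    nlinarith
  have hM42 : M ^ 4 ≤ M ^ 2 := by
    have : M ^ 4 = M ^ 2 * M ^ 2 := by ring
    rw [this]
    nlinarith
  have hk : M ^ 4 / 10 ^ 6 * T ≤ 1 / 10 ^ 6 * (M ^ 2 * T) := by
    have : M ^ 4 / 10 ^ 6 * T = 1 / 10 ^ 6 * (M ^ 4 * T) := by ring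
    rw [this]
    have := mul_le_mul_of_nonneg_right hM42 hT0.le
    linarith
  have hpos : 0 < M ^ 2 * T := by positivity
  have hl : 3 * E * KR = 3 * (E * KR) := by ring
  rw [hl] at h
  have h0 : 4 / 5 * M ^ 2 * T = 4 / 5 * (M ^ 2 * T) := by ring
  rw [h0] at h
  norm_num at *
  linarith

theorem crq (hU : UbbStmt) (hC : CgaStmt) (hTm : TpmStmt) : CrqStmt := by
  intro X Y _ _ A P A1 B Q B1 N N' f E M K T hf hM hM1 hE hK hS hA hB hz h1 h2 h3 h4
  by_contra hno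
  have hTn : 1 ≤ T := hA.pos
  have hT : (1 : ℝ) ≤ (T : ℝ) := by exact_mod_cast hTn
  have hT0 : (0 : ℝ) < (T : ℝ) := by linarith
  set r : ℕ := ⌈1 / (2 * M ^ 2)⌉₊ with hrdef
  have hr1 : 1 ≤ r := by
    rw [hrdef]
    exact Nat.one_le_ceil_iff.mpr (by positivity)
  have hrge : 1 / (2 * M ^ 2) ≤ (r : ℝ) := Nat.le_ceil _
  have hrlt : (r : ℝ) < 1 / (2 * M ^ 2) + 1 := Nat.ceil_lt_add_one (by positivity)
  have hr10 : ⌈1 / (10 * M)⌉₊ ≤ r := by
    apply Nat.ceil_le_ceil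
    apply one_div_le_one_div_of_le (by positivity)
    nlinarith
  have hz' : E * K ^ ⌈1 / (10 * M)⌉₊ ≤ M ^ 4 / 10 ^ 6 * T := by
    refine le_trans ?_ hz
    exact mul_le_mul_of_nonneg_left (pow_le_pow_right₀ hK hr10) hE.le
  -- (1a)
  have hP1 : Prb Q (fun _ : Y => 1 / (T : ℝ)) := by
    refine ⟨fun _ _ => by positivity, ?_⟩
    rw [Finset.sum_const, hB.cP, nsmul_eq_mul]
    field_simp
  have c1 := hC X Y A P A1 B Q N f (fun _ => 1 / (T : ℝ)) E M K T hf hM hM1 hE hK hS hA hB.PB hP1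
    (fun _ _ => le_refl _) hz'
    (by
      have : ∑ x ∈ P, ∑ b ∈ Q, 1 / (T : ℝ) * f x b = (∑ x ∈ P, ∑ b ∈ Q, f x b) / T := by
        simp only [← Finset.mul_sum]; ring
      rw [this, le_div_iff₀ hT0]
      refine le_trans (le_of_eq ?_) h1
      ring)
    (by
      have : ∑ x ∈ P, ∑ b ∈ Q, 1 / (T : ℝ) * ((∑ w ∈ N x, f w b) / T) =
          (∑ x ∈ P, ∑ b ∈ Q, ∑ w ∈ N x, f w b) / T ^ 2 := by
        simp only [← Finset.mul_sum, ← Finset.sum_div]
        field_simp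
      rw [this, le_div_iff₀ (by positivity)]
      refine le_trans (le_of_eq ?_) h2
      ring)
  -- (1b)
  set β : Y → ℝ := fun z => ((Q.filter fun y => z ∈ N' y).card : ℝ) / (T : ℝ) ^ 2 with hβ
  have hβs : ∀ g : Y → ℝ, ∑ z ∈ B1, β z * g z = (∑ y ∈ Q, ∑ z ∈ N' y, g z) / (T : ℝ) ^ 2 := by
    intro g
    rw [← sum_beta Q B1 N' hB.NB g, Finset.sum_div]
    refine Finset.sum_congr rfl fun z _ => ?_
    simp only [hβ]
    ring
  have hP2 : Prb B1 β := by
    refine ⟨fun _ _ => by simp only [hβ]; positivity, ?_⟩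
    have := hβs (fun _ => 1)
    simp only [mul_one] at this
    rw [this]
    have h5 : ∑ y ∈ Q, ∑ z ∈ N' y, (1 : ℝ) = (T : ℝ) ^ 2 := by
      have : ∀ y ∈ Q, ∑ z ∈ N' y, (1 : ℝ) = (T : ℝ) := by
        intro y hy
        rw [Finset.sum_const, hB.cN y hy, nsmul_eq_mul, mul_one]
      rw [Finset.sum_congr rfl this, Finset.sum_const, hB.cP, nsmul_eq_mul]
      ring
    rw [h5]
    field_simp
  have c2 := hC X Y A P A1 B B1 N f β E M K T hf hM hM1 hE hK hS hA hB.B1B hP2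
    (by
      intro b _
      simp only [hβ]
      have h6 : ((Q.filter fun y => b ∈ N' y).card : ℝ) ≤ (T : ℝ) := by
        have := Finset.card_filter_le Q (fun y => b ∈ N' y)
        rw [hB.cP] at this
        exact_mod_cast this
      rw [div_le_div_iff₀ (by positivity) hT0]
      nlinarith) hz'
    (by
      have : ∑ x ∈ P, ∑ b ∈ B1, β b * f x b =
          (∑ x ∈ P, ∑ y ∈ Q, ∑ z ∈ N' y, f x z) / (T : ℝ) ^ 2 := by
        rw [Finset.sum_div]
        exact Finset.sum_congr rfl fun x _ => hβs _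
      rw [this, le_div_iff₀ (by positivity)]
      refine le_trans (le_of_eq ?_) h3
      ring)
    (by
      have : ∑ x ∈ P, ∑ b ∈ B1, β b * ((∑ w ∈ N x, f w b) / T) =
          (∑ x ∈ P, ∑ y ∈ Q, ∑ w ∈ N x, ∑ z ∈ N' y, f w z) / (T : ℝ) ^ 3 := by
        rw [Finset.sum_div]
        refine Finset.sum_congr rfl fun x _ => ?_
        rw [hβs]
        have : ∀ y ∈ Q, ∑ z ∈ N' y, (∑ w ∈ N x, f w z) / (T : ℝ) =
            (∑ w ∈ N x, ∑ z ∈ N' y, f w z) / (T : ℝ) := by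
          intro y _
          rw [← Finset.sum_div, Finset.sum_comm]
        rw [Finset.sum_congr rfl this, ← Finset.sum_div]
        field_simp
      rw [this, le_div_iff₀ (by positivity)]
      refine le_trans (le_of_eq ?_) h4
      ring)
  -- (2)
  have hub := hU X Y A P A1 B N f E ((1 + 1 / 200) * M) K T hf hE (by positivity)
    (by nlinarith) hS hA
  have hPr : Prb (edg P A1 N) (fun _ : X × X => 1 / (T : ℝ) ^ 2) := by
    refine ⟨fun _ _ => by positivity, ?_⟩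
    rw [sum_edg P A1 N hA.NB]
    have : ∀ x ∈ P, ∑ w ∈ N x, 1 / (T : ℝ) ^ 2 = 1 / (T : ℝ) := by
      intro x hx
      rw [Finset.sum_const, hA.cN x hx, nsmul_eq_mul]
      field_simp
    rw [Finset.sum_congr rfl this, Finset.sum_const, hA.cP, nsmul_eq_mul]
    field_simp
  have hG : Bin (fun (p : X × X) b => f p.1 b * f p.2 b) := by
    intro p b
    rcases hf p.1 b with h | h <;> rcases hf p.2 b with h' | h' <;> simp [h, h']
  have key := hTm (X × X) Y (edg P A1 N) (fun _ => 1 / (T : ℝ) ^ 2) B Q B1 N'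
    (fun p b => f p.1 b * f p.2 b) (((1 + 1 / 200) * M) ^ 2) (3 * E) (2 * E / T) K
    (4 / 5 * M ^ 2) (4 / 5 * M ^ 2) T r hG hPr (by positivity)
    (by nlinarith) (by positivity) (by positivity) hub hB hr1
    (by
      refine le_trans c1 (le_of_eq ?_)
      have : ∀ y ∈ Q, ∑ i ∈ edg P A1 N, 1 / (T : ℝ) ^ 2 * (f i.1 y * f i.2 y) =
          ∑ x ∈ P, 1 / (T : ℝ) * f x y * ((∑ w ∈ N x, f w y) / T) := by
        intro y _
        rw [sum_edg P A1 N hA.NB]
        refine Finset.sum_congr rfl fun x _ => ?_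
        rw [Finset.sum_div, Finset.mul_sum]
        refine Finset.sum_congr rfl fun w _ => ?_
        field_simp
      rw [Finset.sum_congr rfl this, Finset.sum_comm])
    (by
      refine le_trans c2 (le_of_eq ?_)
      have e1 : ∀ x ∈ P, ∑ b ∈ B1, β b * f x b * ((∑ w ∈ N x, f w b) / T) =
          ∑ y ∈ Q, ∑ w ∈ N x, 1 / (T : ℝ) ^ 2 * ((∑ z ∈ N' y, f x z * f w z) / T) := by
        intro x _
        have : ∀ b ∈ B1, β b * f x b * ((∑ w ∈ N x, f w b) / T) =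
            β b * (f x b * ((∑ w ∈ N x, f w b) / T)) := fun b _ => by ring
        rw [Finset.sum_congr rfl this, hβs, Finset.sum_div]
        refine Finset.sum_congr rfl fun y _ => ?_
        rw [← Finset.mul_sum, ← Finset.sum_div, Finset.sum_comm]
        have : ∀ z ∈ N' y, f x z * ((∑ w ∈ N x, f w z) / (T : ℝ)) =
            (∑ w ∈ N x, f x z * f w z) / T := by
          intro z _
          rw [← Finset.mul_sum]
          ring
        rw [Finset.sum_congr rfl this, ← Finset.sum_div]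
        ring
      have e2 : ∀ y ∈ Q, ∑ i ∈ edg P A1 N, 1 / (T : ℝ) ^ 2 *
          ((∑ z ∈ N' y, f i.1 z * f i.2 z) / T) =
          ∑ x ∈ P, ∑ w ∈ N x, 1 / (T : ℝ) ^ 2 * ((∑ z ∈ N' y, f x z * f w z) / T) := by
        intro y _
        rw [sum_edg P A1 N hA.NB]
      rw [Finset.sum_congr rfl e1, Finset.sum_congr rfl e2, Finset.sum_comm])
  have hzero : ∑ b ∈ Q, ∑ i ∈ edg P A1 N, 1 / (T : ℝ) ^ 2 * (f i.1 b * f i.2 b) *
      ((∑ y ∈ N' b, f i.1 y * f i.2 y) / T) = 0 := by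
    refine Finset.sum_eq_zero fun y hy => ?_
    refine Finset.sum_eq_zero fun i hi => ?_
    rw [mul_div_assoc', Finset.mul_sum, Finset.sum_eq_zero, zero_div]
    intro z hz2
    by_contra hne
    apply hno
    have hi' : i.1 ∈ P ∧ i.2 ∈ N i.1 := by
      unfold edg at hi
      simp only [Finset.mem_filter, Finset.mem_product] at hi
      exact ⟨hi.1.1, hi.2⟩
    have t1 : f i.1 y ≠ 0 := by intro h; apply hne; rw [h]; ring
    have t2 : f i.2 y ≠ 0 := by intro h; apply hne; rw [h]; ring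
    have t3 : f i.1 z ≠ 0 := by intro h; apply hne; rw [h]; ring
    have t4 : f i.2 z ≠ 0 := by intro h; apply hne; rw [h]; ring
    exact ⟨i.1, hi'.1, i.2, hi'.2, y, hy, z, hz2, (hf _ _).resolve_left t1,
      (hf _ _).resolve_left t2, (hf _ _).resolve_left t3, (hf _ _).resolve_left t4⟩
  rw [hzero, mul_zero, zero_add] at key
  exact num M T E (K ^ r) r hM hM1 hT hE (one_le_pow₀ hK) hz (by exact_mod_cast hr1) hrge
    (by linarith) key

end Pool.Agent.EGF.H59
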